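import Mathlib
import Pool.Agent.H293Z.MO.Final

set_option autoImplicit false

open Filter Topology

namespace Pool.Agent.Results.MP_768c9c_nt.AFalseUnderRH

/-- If the Riemann hypothesis holds, some CMO function has partial sums `o(x^(-1/2))`. -/
theorem result (h : RiemannHypothesis) : ∃ f : ℕ → ℂ,
    f 1 = 1 ∧
    (∀ m n : ℕ, 0 < m → 0 < n → f (m * n) = f m * f n) ∧
    Tendsto (fun N : ℕ => ∑ n ∈ Finset.Icc 1 N, f n) atTop (𝓝 0) ∧
    (fun x : ℝ => ∑ n ∈ Finset.Icc 1 ⌊x⌋₊, f n) =o[atTop] (fun x : ℝ => x ^ (-(1 / 2) : ℝ)) := by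
  obtain ⟨f, h1, h2, _, h4⟩ := Pool.Agent.H293Z.MO.goal (Pool.Agent.H293Z.MO.noZero_of_RH h)
  exact ⟨f, h1, h2, Pool.Agent.H293Z.MO.tendsto_of f h4, Pool.Agent.H293Z.MO.littleO_of f h4⟩

end Pool.Agent.Results.MP_768c9c_nt.AFalseUnderRH
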