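import Mathlib
import Pool.Agent.H293Z.CMO.Main

set_option autoImplicit false

open Filter Topology

namespace Pool.Agent.Results.MP_768c9c_nt.BSmallAtPrimes

/-- The conjectured lower bound holds when, at every large prime, `f p` has modulus at most `1/p`
or is a nonnegative real number. -/
theorem result (f : ℕ → ℂ) (h1 : f 1 = 1)
    (hm : ∀ m n : ℕ, 0 < m → 0 < n → f (m * n) = f m * f n)
    (hp : ∃ P : ℕ, ∀ p : ℕ, p.Prime → P ≤ p →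
      ‖f p‖ ≤ 1 / (p : ℝ) ∨ ((f p).im = 0 ∧ 0 ≤ (f p).re)) :
    ∃ c : ℝ, 0 < c ∧ ∀ M : ℕ, ∃ N : ℕ, M ≤ N ∧ 0 < N ∧
      c / Real.sqrt (N : ℝ) ≤ ‖∑ n ∈ Finset.Icc 1 N, f n‖ := by
  obtain ⟨P, hP⟩ := hp
  refine Pool.Agent.H293Z.CMO.omega_of_not_Sm
    (Pool.Agent.H293Z.CMO.not_Sm_large P h1 hm fun p hp' hPp => ?_)
  rcases hP p hp' hPp with h | h
  · exact Or.inl h
  · exact Or.inr (Complex.nonneg_iff.2 ⟨h.2, h.1.symm⟩)

end Pool.Agent.Results.MP_768c9c_nt.BSmallAtPrimes
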