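import Mathlib
import Pool.Agent.H293Z.CMO.Main

set_option autoImplicit false

open Filter Topology

namespace Pool.Agent.Results.MP_768c9c_nt.CPowerLowerBound

/-- The partial sums of a completely multiplicative function exceed `N^(ε-1)` infinitely often, for
some positive `ε` that depends on the function. -/
theorem result (f : ℕ → ℂ) (h1 : f 1 = 1)
    (hm : ∀ m n : ℕ, 0 < m → 0 < n → f (m * n) = f m * f n) :
    ∃ ε : ℝ, 0 < ε ∧ ∀ M : ℕ, ∃ N : ℕ, M ≤ N ∧
      (N : ℝ) ^ (ε - 1) ≤ ‖∑ n ∈ Finset.Icc 1 N, f n‖ :=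
  Pool.Agent.H293Z.CMO.power_lower h1 hm

end Pool.Agent.Results.MP_768c9c_nt.CPowerLowerBound
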